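import Mathlib
import Pool.Agent.Q155.FibSeq

/-!
`a(60) = 8` but `a(51,60) = 10`.
-/

set_option autoImplicit false

namespace Pool.Agent.Results.MP_98b1c4_co.PairNeedsTwoMore

open Q155.FibSeq

theorem regA_single : RegA [60, 30, 15, 7, 4, 2, 1, 1] := by
  have h3 : RegA [2, 1, 1] := RegA.left [1, 1] [] RegA.base (by simp)
  have h4 : RegA [4, 2, 1, 1] := RegA.left [2, 1, 1] [] h3 (by simp)
  have h5 : RegA [7, 4, 2, 1, 1] := RegA.left [4, 2, 1] [1] h4 (by simp)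
  have h6 : RegA [15, 7, 4, 2, 1, 1] := RegA.left [7, 4, 2, 1, 1] [] h5 (by simp)
  have h7 : RegA [30, 15, 7, 4, 2, 1, 1] := RegA.left [15, 7, 4, 2, 1, 1] [] h6 (by simp)
  exact RegA.left [30, 15, 7, 4, 2, 1, 1] [] h7 (by simp)

theorem regA_pair : RegA [19, 16, 3, 2, 1, 1, 1, 8, 51, 60] := by
  have h3 : RegA [1, 1, 1] := RegA.right [1] [1] RegA.base (by simp)
  have h4 : RegA [2, 1, 1, 1] := RegA.left [1, 1] [1] h3 (by simp)
  have h5 : RegA [3, 2, 1, 1, 1] := RegA.left [2, 1] [1, 1] h4 (by simp)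
  have h6 : RegA [3, 2, 1, 1, 1, 8] := RegA.right [] [3, 2, 1, 1, 1] h5 (by simp)
  have h7 : RegA [16, 3, 2, 1, 1, 1, 8] := RegA.left [3, 2, 1, 1, 1, 8] [] h6 (by simp)
  have h8 : RegA [19, 16, 3, 2, 1, 1, 1, 8] := RegA.left [16, 3] [2, 1, 1, 1, 8] h7 (by simp)
  have h9 : RegA [19, 16, 3, 2, 1, 1, 1, 8, 51] :=
    RegA.right [] [19, 16, 3, 2, 1, 1, 1, 8] h8 (by simp)
  exact RegA.right [19, 16, 3, 2, 1, 1] [1, 8, 51] h9 (by simp)

/-- **Disproof of Q1**: `a(60) = 8` and `a(51,60) = 10 = a(60) + 2`. -/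
theorem result : IsLeast {n | Has RegA [60] n} 8 ∧ IsLeast {n | Has RegA [51, 60] n} 10 := by
  refine ⟨⟨⟨_, regA_single, rfl, [60], List.Perm.refl _, by decide⟩, ?_⟩,
    ⟨⟨_, regA_pair, rfl, [51, 60], List.Perm.refl _, by decide⟩, ?_⟩⟩
  · intro n hn
    exact lower_singleA (m := 5) (by norm_num) (by norm_num) hn
  · intro n hn
    exact lowerA (m := 7) (by norm_num) (by decide +kernel) hn

end Pool.Agent.Results.MP_98b1c4_co.PairNeedsTwoMore
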